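import Mathlib
import Pool.Agent.Helper96.MP.Defs

/-!
# FLIM: behaviour of a cusp form and of its primitive at the cusps

Near a cusp `σ ∞` the function `g(z) = f(σ z) (q z + y)⁻²` is periodic of period `M` and bounded by
`B / im z`, so it is `w G₁(w)` with `w = e(z/M)`, `G₁` holomorphic on the unit disc; a primitive
`H` of `G₁` gives `F(σ z) = c + M H(e(z/M))`.
-/

set_option autoImplicit false

namespace Pool.Agent.Helper96.MP

open Complex MeasureTheory Filter Topology

theorem flim_isOpen : IsOpen UH := isOpen_lt continuous_const Complex.continuous_im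

theorem flim_convex : Convex ℝ UH := by
  have : UH = Complex.imLm ⁻¹' (Set.Ioi 0) := by
    ext z; simp [UH]
  rw [this]
  exact (convex_Ioi (0 : ℝ)).linear_preimage Complex.imLm

theorem flim_const (f : ℂ → ℂ) (hf : ∀ z ∈ UH, HasDerivAt f 0 z) :
    ∀ z ∈ UH, ∀ w ∈ UH, f z = f w := by
  intro z hz w hw
  refine flim_isOpen.is_const_of_deriv_eq_zero flim_convex.isPreconnected
    (fun u hu => (hf u hu).differentiableAt.differentiableWithinAt) ?_ hz hw
  intro u hu
  simpa using (hf u hu).deriv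

theorem flim_den (p x q y : ℤ) (hD : p * y - x * q ≠ 0) (z : ℂ) (hz : z ∈ UH) :
    (q : ℂ) * z + (y : ℂ) ≠ 0 := by
  intro h
  have him : (q : ℝ) * z.im = 0 := by
    have := congrArg Complex.im h
    simpa using this
  have hq : q = 0 := by
    rcases mul_eq_zero.mp him with h1 | h1
    · exact_mod_cast h1
    · exact absurd h1 (ne_of_gt hz)
  subst hq
  have hy : y = 0 := by
    have : (y : ℂ) = 0 := by simpa using h
    exact_mod_cast this
  subst hy
  simp at hD

theorem flim_im (p x q y : ℤ) (z : ℂ) :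
    (mo p x q y z).im
      = ((p * y - x * q : ℤ) : ℝ) * z.im / Complex.normSq ((q : ℂ) * z + (y : ℂ)) := by
  unfold mo
  rw [Complex.div_im]
  simp only [Complex.add_im, Complex.mul_im, Complex.intCast_re, Complex.intCast_im,
    Complex.add_re, Complex.mul_re]
  push_cast
  ring

theorem flim_mem (p x q y : ℤ) (hD : 0 < p * y - x * q) (z : ℂ) (hz : z ∈ UH) :
    mo p x q y z ∈ UH := by
  change 0 < (mo p x q y z).im
  rw [flim_im]
  have h1 : (0 : ℝ) < ((p * y - x * q : ℤ) : ℝ) := by exact_mod_cast hD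
  have h2 := Complex.normSq_pos.mpr (flim_den p x q y (ne_of_gt hD) z hz)
  have h3 : (0 : ℝ) < z.im := hz
  positivity

theorem flim_deriv (p x q y : ℤ) (hD : p * y - x * q ≠ 0) (z : ℂ) (hz : z ∈ UH) :
    HasDerivAt (mo p x q y) (((p * y - x * q : ℤ) : ℂ) / ((q : ℂ) * z + (y : ℂ)) ^ 2) z := by
  have hd := flim_den p x q y hD z hz
  have h1 : HasDerivAt (fun w : ℂ => (p : ℂ) * w + (x : ℂ)) (p : ℂ) z := by
    simpa using ((hasDerivAt_id z).const_mul (p : ℂ)).add_const (x : ℂ)
  have h2 : HasDerivAt (fun w : ℂ => (q : ℂ) * w + (y : ℂ)) (q : ℂ) z := by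
    simpa using ((hasDerivAt_id z).const_mul (q : ℂ)).add_const (y : ℂ)
  have h3 := h1.div h2 hd
  have h4 : ((p : ℂ) * ((q : ℂ) * z + (y : ℂ)) - ((p : ℂ) * z + (x : ℂ)) * (q : ℂ))
      / ((q : ℂ) * z + (y : ℂ)) ^ 2
      = ((p * y - x * q : ℤ) : ℂ) / ((q : ℂ) * z + (y : ℂ)) ^ 2 := by
    push_cast
    congr 1
    ring
  rw [h4] at h3
  exact h3

theorem flim_comp (p q r s p' q' r' s' : ℤ) (z : ℂ)
    (h : (r' : ℂ) * z + (s' : ℂ) ≠ 0) :
    mo p q r s (mo p' q' r' s' z)
      = mo (p * p' + q * r') (p * q' + q * s') (r * p' + s * r') (r * q' + s * s') z := by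
  unfold mo
  push_cast
  have e1 : (p : ℂ) * (((p' : ℂ) * z + (q' : ℂ)) / ((r' : ℂ) * z + (s' : ℂ))) + (q : ℂ)
      = (((p : ℂ) * p' + q * r') * z + (p * q' + q * s')) / ((r' : ℂ) * z + (s' : ℂ)) := by
    rw [← mul_div_assoc, div_add' _ _ _ h]
    congr 1
    ring
  have e2 : (r : ℂ) * (((p' : ℂ) * z + (q' : ℂ)) / ((r' : ℂ) * z + (s' : ℂ))) + (s : ℂ)
      = (((r : ℂ) * p' + s * r') * z + (r * q' + s * s')) / ((r' : ℂ) * z + (s' : ℂ)) := by
    rw [← mul_div_assoc, div_add' _ _ _ h]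
    congr 1
    ring
  rw [e1, e2, div_div_div_cancel_right₀ h]

/-- `I∞` as in Mathlib -/
theorem flim_ev : ∀ᶠ z : ℂ in comap Complex.im atTop, z ∈ UH :=
  (eventually_gt_atTop (0 : ℝ)).comap Complex.im

/-- the function `g(z) = f(σ z) (q z + y)⁻²` -/
noncomputable def flim_g (b : ℕ → ℂ) (p x q y : ℤ) (z : ℂ) : ℂ := by
  classical
  exact if 0 < z.im then qs b (mo p x q y z) / ((q : ℂ) * z + (y : ℂ)) ^ 2 else 0

theorem flim_g_of (b : ℕ → ℂ) (p x q y : ℤ) (z : ℂ) (hz : z ∈ UH) :
    flim_g b p x q y z = qs b (mo p x q y z) / ((q : ℂ) * z + (y : ℂ)) ^ 2 := by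
  have hz' : 0 < z.im := hz
  unfold flim_g
  rw [if_pos hz']

theorem flim_g_norm (b : ℕ → ℂ) (p x q y : ℤ) (hD : p * y - x * q = 1) (z : ℂ) (hz : z ∈ UH) :
    z.im * ‖flim_g b p x q y z‖ = (mo p x q y z).im * ‖qs b (mo p x q y z)‖ := by
  rw [flim_g_of b p x q y z hz, flim_im, hD, norm_div, norm_pow, Complex.normSq_eq_norm_sq]
  push_cast
  ring

theorem flim_per (M : ℕ) (b : ℕ → ℂ) (hb : Cusp M b) (p x q y : ℤ) (hD : p * y - x * q = 1) :
    Function.Periodic (flim_g b p x q y) ((M : ℝ) : ℂ) := by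
  intro z
  by_cases hz : 0 < z.im
  · have hz' : z + ((M : ℝ) : ℂ) ∈ UH := by
      change 0 < (z + ((M : ℝ) : ℂ)).im
      simpa using hz
    rw [flim_g_of b p x q y _ hz', flim_g_of b p x q y z hz]
    have hne : p * y - x * q ≠ 0 := by rw [hD]; exact one_ne_zero
    have d1 := flim_den p x q y hne z hz
    have d2 := flim_den p x q y hne _ hz'
    have hw := flim_mem p x q y (by rw [hD]; exact one_pos) z hz
    have hinv := hb.inv (mo p x q y z) hw (1 - p * q * M) (p ^ 2 * M) (-(q ^ 2 * M))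
      (1 + p * q * M) (by ring) (by exact ⟨-q ^ 2, by ring⟩)
    have hDc : (p : ℂ) * y - x * q = 1 := by exact_mod_cast hD
    have e0 : mo (1 - p * q * M) (p ^ 2 * M) (-(q ^ 2 * M)) (1 + p * q * M) (mo p x q y z)
        = mo p x q y (z + ((M : ℝ) : ℂ)) := by
      rw [flim_comp _ _ _ _ _ _ _ _ z d1]
      unfold mo
      push_cast
      congr 1
      · linear_combination (((p : ℂ) * M) * hDc)
      · linear_combination ((q : ℂ) * M) * hDc
    have e1 : (((-(q ^ 2 * M) : ℤ) : ℂ)) * mo p x q y z + (((1 + p * q * M : ℤ)) : ℂ)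
        = ((q : ℂ) * (z + ((M : ℝ) : ℂ)) + y) / ((q : ℂ) * z + y) := by
      unfold mo
      rw [← mul_div_assoc, div_add' _ _ _ d1]
      congr 1
      push_cast
      linear_combination ((q : ℂ) * M) * hDc
    have e2 : qs b (mo p x q y (z + ((M : ℝ) : ℂ)))
        = (((q : ℂ) * (z + ((M : ℝ) : ℂ)) + y) / ((q : ℂ) * z + y)) ^ 2 * qs b (mo p x q y z) := by
      rw [← e0, ← e1]
      exact hinv
    rw [e2]
    field_simp
  · have hz' : ¬ 0 < (z + ((M : ℝ) : ℂ)).im := by simpa using hz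
    unfold flim_g
    rw [if_neg hz, if_neg hz']

theorem flim_F_deriv (h1 : ST_QDIF) (M : ℕ) (b : ℕ → ℂ) (hM : 1 ≤ M) (hb : Cusp M b)
    (p x q y : ℤ) (hD : p * y - x * q = 1) (z : ℂ) (hz : z ∈ UH) :
    HasDerivAt (fun z => Fs b (mo p x q y z))
      (2 * (Real.pi : ℂ) * I * flim_g b p x q y z) z := by
  obtain ⟨_, _, h3, _⟩ := h1 M b hM hb
  have hw := flim_mem p x q y (by rw [hD]; exact one_pos) z hz
  have hne : p * y - x * q ≠ 0 := by rw [hD]; exact one_ne_zero
  have h4 := (h3 _ hw).comp z (flim_deriv p x q y hne z hz)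
  rw [flim_g_of b p x q y z hz]
  have e : 2 * (Real.pi : ℂ) * I * qs b (mo p x q y z)
      * (((p * y - x * q : ℤ) : ℂ) / ((q : ℂ) * z + (y : ℂ)) ^ 2)
      = 2 * (Real.pi : ℂ) * I * (qs b (mo p x q y z) / ((q : ℂ) * z + (y : ℂ)) ^ 2) := by
    rw [hD]
    push_cast
    ring
  rw [e] at h4
  exact h4

theorem flim_g_diff (h1 : ST_QDIF) (M : ℕ) (b : ℕ → ℂ) (hM : 1 ≤ M) (hb : Cusp M b)
    (p x q y : ℤ) (hD : p * y - x * q = 1) (z : ℂ) (hz : z ∈ UH) :
    DifferentiableAt ℂ (flim_g b p x q y) z := by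
  obtain ⟨_, h2, _⟩ := h1 M b hM hb
  have hw := flim_mem p x q y (by rw [hD]; exact one_pos) z hz
  have hne : p * y - x * q ≠ 0 := by rw [hD]; exact one_ne_zero
  have d1 := flim_den p x q y hne z hz
  have h4 : DifferentiableAt ℂ (fun z => qs b (mo p x q y z)) z :=
    ((h2 _ hw).differentiableAt (flim_isOpen.mem_nhds hw)).comp z
      (flim_deriv p x q y hne z hz).differentiableAt
  have h5 : DifferentiableAt ℂ (fun z => qs b (mo p x q y z) / ((q : ℂ) * z + (y : ℂ)) ^ 2) z := by
    refine h4.div ?_ (pow_ne_zero 2 d1)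
    fun_prop
  refine h5.congr_of_eventuallyEq ?_
  filter_upwards [flim_isOpen.mem_nhds hz] with w hw
  exact flim_g_of b p x q y w hw

theorem flim_g_zero (M : ℕ) (b : ℕ → ℂ) (hb : Cusp M b)
    (p x q y : ℤ) (hD : p * y - x * q = 1) :
    ZeroAtFilter (comap Complex.im atTop) (flim_g b p x q y) := by
  obtain ⟨B, hB⟩ := hb.bdd
  unfold ZeroAtFilter
  rw [tendsto_zero_iff_norm_tendsto_zero]
  have h0 : Tendsto (fun z : ℂ => B / z.im) (comap Complex.im atTop) (𝓝 0) :=
    (tendsto_const_nhds.div_atTop tendsto_id).comp tendsto_comap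
  refine squeeze_zero' (Eventually.of_forall fun z => norm_nonneg _) ?_ h0
  filter_upwards [flim_ev] with z hz
  have hz' : 0 < z.im := hz
  rw [le_div_iff₀ hz', mul_comm, flim_g_norm b p x q y hD z hz]
  exact hB _ (flim_mem p x q y (by rw [hD]; exact one_pos) z hz)

theorem flim_expansion (h1 : ST_QDIF) (M : ℕ) (b : ℕ → ℂ) (hM : 1 ≤ M) (hb : Cusp M b)
    (p x q y : ℤ) (hD : p * y - x * q = 1) :
    ∃ G : ℂ → ℂ, DifferentiableOn ℂ G (Metric.ball 0 1) ∧
      ∀ z ∈ UH, G (Function.Periodic.qParam (M : ℝ) z) = Fs b (mo p x q y z) := by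
  have hM0 : (0 : ℝ) < (M : ℝ) := by exact_mod_cast hM
  have hper := flim_per M b hb p x q y hD
  have hzero := flim_g_zero M b hb p x q y hD
  have hhol : ∀ᶠ z : ℂ in comap Complex.im atTop, DifferentiableAt ℂ (flim_g b p x q y) z :=
    flim_ev.mono (fun z hz => flim_g_diff h1 M b hM hb p x q y hD z hz)
  set Φ : ℂ → ℂ := Function.Periodic.cuspFunction (M : ℝ) (flim_g b p x q y) with hΦ
  have hΦ0 : Φ 0 = 0 := Function.Periodic.cuspFunction_zero_of_zero_at_inf hM0 hzero
  have hΦd : DifferentiableOn ℂ Φ (Metric.ball 0 1) := by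
    intro w hw
    refine DifferentiableAt.differentiableWithinAt ?_
    by_cases h0 : w = 0
    · rw [h0]
      exact Function.Periodic.differentiableAt_cuspFunction_zero hM0 hper hhol
        hzero.boundedAtFilter
    · have e := Function.Periodic.qParam_right_inv hM0.ne' h0
      have hi : 0 < (Function.Periodic.invQParam (M : ℝ) w).im := by
        rw [← Function.Periodic.norm_qParam_lt_iff hM0, e]
        simpa using hw
      rw [← e]
      exact Function.Periodic.differentiableAt_cuspFunction hM0.ne' hper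
        (flim_g_diff h1 M b hM hb p x q y hD _ hi)
  have hds : DifferentiableOn ℂ (dslope Φ 0) (Metric.ball 0 1) :=
    (Complex.differentiableOn_dslope (Metric.ball_mem_nhds 0 one_pos)).mpr hΦd
  obtain ⟨H, hH⟩ := hds.isExactOn_ball
  have hq1 : ∀ z ∈ UH, Function.Periodic.qParam (M : ℝ) z ∈ Metric.ball (0 : ℂ) 1 := by
    intro z hz
    rw [mem_ball_zero_iff]
    exact Function.Periodic.norm_qParam_lt_one hM0 hz
  have hconst := flim_const (fun z => Fs b (mo p x q y z)
    - (M : ℂ) * H (Function.Periodic.qParam (M : ℝ) z)) (by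
      intro z hz
      have k1 := flim_F_deriv h1 M b hM hb p x q y hD z hz
      have k2 : HasDerivAt (Function.Periodic.qParam (M : ℝ))
          (Function.Periodic.qParam (M : ℝ) z * (2 * Real.pi * I / (M : ℂ))) z := by
        have := (((hasDerivAt_id z).const_mul (2 * (Real.pi : ℂ) * I)).div_const
          (((M : ℝ) : ℂ))).cexp
        rw [mul_one] at this
        exact this
      have k3 := (hH _ (hq1 z hz)).comp z k2
      have k4 := k1.sub (k3.const_mul (M : ℂ))
      have hqz : Function.Periodic.qParam (M : ℝ) z ≠ 0 := Function.Periodic.qParam_ne_zero z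
      have k5 : dslope Φ 0 (Function.Periodic.qParam (M : ℝ) z)
          = flim_g b p x q y z / Function.Periodic.qParam (M : ℝ) z := by
        rw [dslope_of_ne _ hqz, slope_def_field, hΦ0, sub_zero, sub_zero, hΦ,
          Function.Periodic.eq_cuspFunction hM0.ne' hper]
      have hMc : (M : ℂ) ≠ 0 := by
        have : M ≠ 0 := by omega
        exact_mod_cast this
      have k6 : 2 * (Real.pi : ℂ) * I * flim_g b p x q y z
          - (M : ℂ) * (dslope Φ 0 (Function.Periodic.qParam (M : ℝ) z)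
            * (Function.Periodic.qParam (M : ℝ) z * (2 * Real.pi * I / (M : ℂ)))) = 0 := by
        rw [k5]
        field_simp
        ring
      rw [k6] at k4
      exact k4)
  refine ⟨fun w => (Fs b (mo p x q y I) - (M : ℂ) * H (Function.Periodic.qParam (M : ℝ) I))
    + (M : ℂ) * H w, ?_, ?_⟩
  · refine (differentiableOn_const _).add (DifferentiableOn.const_mul ?_ _)
    intro w hw
    exact (hH w hw).differentiableAt.differentiableWithinAt
  · intro z hz
    have hI : I ∈ UH := by simp [UH]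
    have := hconst z hz I hI
    simp only at this ⊢
    rw [← this]
    ring

theorem flim_lim1 (h1 : ST_QDIF) (M : ℕ) (b : ℕ → ℂ) (hM : 1 ≤ M) (hb : Cusp M b)
    (p x q y : ℤ) (hD : p * y - x * q = 1) :
    ∃ L : ℂ, Tendsto (fun z : ℂ => Fs b (mo p x q y z)) (comap Complex.im atTop) (𝓝 L) := by
  have hM0 : (0 : ℝ) < (M : ℝ) := by exact_mod_cast hM
  obtain ⟨G, hG, hGz⟩ := flim_expansion h1 M b hM hb p x q y hD
  refine ⟨G 0, ?_⟩
  have hc : ContinuousAt G 0 :=
    (hG 0 (Metric.mem_ball_self one_pos)).differentiableAt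
      (Metric.ball_mem_nhds 0 one_pos) |>.continuousAt
  have h2 : Tendsto (fun z : ℂ => G (Function.Periodic.qParam (M : ℝ) z))
      (comap Complex.im atTop) (𝓝 (G 0)) :=
    hc.tendsto.comp ((Function.Periodic.qParam_tendsto hM0).mono_right nhdsWithin_le_nhds)
  refine h2.congr' ?_
  filter_upwards [flim_ev] with z hz
  exact hGz z hz

theorem flim_dec1 (h1 : ST_QDIF) (M : ℕ) (b : ℕ → ℂ) (hM : 1 ≤ M) (hb : Cusp M b)
    (p x q y : ℤ) (hD : p * y - x * q = 1) :
    Tendsto (fun z : ℂ => (mo p x q y z).im * ‖qs b (mo p x q y z)‖)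
      (comap Complex.im atTop) (𝓝 0) := by
  have hM0 : (0 : ℝ) < (M : ℝ) := by exact_mod_cast hM
  have hper := flim_per M b hb p x q y hD
  have hzero := flim_g_zero M b hb p x q y hD
  have hhol : ∀ᶠ z : ℂ in comap Complex.im atTop, DifferentiableAt ℂ (flim_g b p x q y) z :=
    flim_ev.mono (fun z hz => flim_g_diff h1 M b hM hb p x q y hD z hz)
  obtain ⟨c, hc⟩ := (Function.Periodic.exp_decay_of_zero_at_inf hM0 hper hhol hzero).bound
  have hlim : Tendsto (fun t : ℝ => c * (t * Real.exp (-2 * Real.pi * t / M))) atTop (𝓝 0) := by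
    have hpos : (0 : ℝ) < 2 * Real.pi / M := by positivity
    have h2 : Tendsto (fun t : ℝ => (2 * Real.pi / M * t) ^ 1 * Real.exp (-(2 * Real.pi / M * t)))
        atTop (𝓝 0) :=
      (Real.tendsto_pow_mul_exp_neg_atTop_nhds_zero 1).comp
        (tendsto_id.const_mul_atTop hpos)
    have h3 := h2.const_mul (c * (2 * Real.pi / M)⁻¹)
    rw [mul_zero] at h3
    refine h3.congr ?_
    intro t
    have e : -(2 * Real.pi / M * t) = -2 * Real.pi * t / M := by ring
    rw [e, pow_one]
    field_simp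
  refine squeeze_zero' ?_ ?_ (hlim.comp tendsto_comap)
  · filter_upwards [flim_ev] with z hz
    have : 0 < (mo p x q y z).im := flim_mem p x q y (by rw [hD]; exact one_pos) z hz
    positivity
  · filter_upwards [flim_ev, hc] with z hz hcz
    rw [← flim_g_norm b p x q y hD z hz]
    have hz' : 0 < z.im := hz
    rw [Real.norm_of_nonneg (Real.exp_nonneg _)] at hcz
    have := mul_le_mul_of_nonneg_left hcz hz'.le
    simp only [Function.comp]
    linarith [this]

theorem flim_neBot : (comap Complex.im atTop : Filter ℂ).NeBot := by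
  refine Filter.comap_neBot ?_
  intro t ht
  obtain ⟨a, ha⟩ := Filter.nonempty_of_mem ht
  exact ⟨⟨0, a⟩, ha⟩

/-- all determinants -/
theorem flim_gen (h1 : ST_QDIF) (h2 : ST_HERM) (M : ℕ) (b : ℕ → ℂ) (hM : 1 ≤ M) (hb : Cusp M b)
    (p x q y : ℤ) (hD : 0 < p * y - x * q) :
    (∃ L : ℂ, Tendsto (fun z : ℂ => Fs b (mo p x q y z)) (comap Complex.im atTop) (𝓝 L)) ∧
    Tendsto (fun z : ℂ => (mo p x q y z).im * ‖qs b (mo p x q y z)‖)
      (comap Complex.im atTop) (𝓝 0) := by
  obtain ⟨n, hn⟩ := Int.eq_ofNat_of_zero_le hD.le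
  have hn1 : 1 ≤ n := by omega
  obtain ⟨t, ⟨ht, p', q', r', s', hdet, e1, e2, e3, e4⟩, -⟩ := h2 n hn1 p x q y (by exact_mod_cast hn)
  have ht' : t.1 * t.2.2 = n := by
    have := (Finset.mem_filter.mp ht).2.1
    exact this
  have ht1 : 0 < t.1 := Nat.pos_of_ne_zero (by rintro h; rw [h] at ht'; omega)
  have ht3 : 0 < t.2.2 := Nat.pos_of_ne_zero (by rintro h; rw [h] at ht'; omega)
  have ht1r : (0 : ℝ) < (t.1 : ℝ) := by exact_mod_cast ht1
  have ht3r : (0 : ℝ) < (t.2.2 : ℝ) := by exact_mod_cast ht3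
  have hmap : Tendsto (fun z : ℂ => mo t.1 t.2.1 0 t.2.2 z) (comap Complex.im atTop)
      (comap Complex.im atTop) := by
    rw [tendsto_comap_iff]
    have k : Tendsto (fun s : ℝ => (t.1 : ℝ) / (t.2.2 : ℝ) * s) atTop atTop :=
      tendsto_id.const_mul_atTop (by positivity)
    refine (k.comp tendsto_comap).congr ?_
    intro z
    simp only [Function.comp]
    rw [flim_im]
    simp only [Int.cast_zero, zero_mul, zero_add, Complex.normSq_apply, Int.cast_natCast,
      Complex.natCast_re, Complex.natCast_im, mul_zero, add_zero, sub_zero, Int.cast_mul]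
    field_simp
  have hcomp : ∀ᶠ z : ℂ in comap Complex.im atTop,
      mo p' q' r' s' (mo t.1 t.2.1 0 t.2.2 z) = mo p x q y z := by
    filter_upwards [flim_ev] with z hz
    rw [flim_comp, e1, e2, e3, e4]
    · simp
    · have : (t.2.2 : ℂ) ≠ 0 := by exact_mod_cast ht3.ne'
      simpa using this
  constructor
  · obtain ⟨L, hL⟩ := flim_lim1 h1 M b hM hb p' q' r' s' hdet
    refine ⟨L, (hL.comp hmap).congr' ?_⟩
    filter_upwards [hcomp] with z hz
    simp only [Function.comp]
    rw [hz]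
  · refine ((flim_dec1 h1 M b hM hb p' q' r' s' hdet).comp hmap).congr' ?_
    filter_upwards [hcomp] with z hz
    simp only [Function.comp]
    rw [hz]

/-- the vertical approach to `p / q` -/
theorem flim_vert (p x q y : ℤ) (hD : 0 < p * y - x * q) (hq : q ≠ 0) (t : ℝ) (ht : 0 < t) :
    mo p x q y (-(y : ℂ) / (q : ℂ) + I * (((p * y - x * q : ℤ) : ℝ) / ((q : ℝ) ^ 2 * t) : ℝ))
      = (p : ℂ) / (q : ℂ) + I * (t : ℂ) := by
  unfold mo
  have hq' : (q : ℂ) ≠ 0 := by exact_mod_cast hq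
  have ht' : (t : ℂ) ≠ 0 := by exact_mod_cast ht.ne'
  have hD' : ((p : ℂ) * y - x * q) ≠ 0 := by
    have : p * y - x * q ≠ 0 := hD.ne'
    exact_mod_cast this
  have hden : (q : ℂ) * (-(y : ℂ) / (q : ℂ)
      + I * (((p * y - x * q : ℤ) : ℝ) / ((q : ℝ) ^ 2 * t) : ℝ)) + (y : ℂ)
      = I * ((p : ℂ) * y - x * q) / (q * t) := by
    push_cast
    field_simp
    ring
  rw [hden, div_eq_iff (by
    refine div_ne_zero (mul_ne_zero I_ne_zero hD') (mul_ne_zero hq' ht'))]
  push_cast
  field_simp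
  have hI : I ^ 2 = -1 := Complex.I_sq
  linear_combination (-((p : ℂ) * y - x * q) * t * q) * hI

theorem flim_vert_tendsto (p x q y : ℤ) (hD : 0 < p * y - x * q) (hq : q ≠ 0) :
    Tendsto (fun t : ℝ => -(y : ℂ) / (q : ℂ)
      + I * (((p * y - x * q : ℤ) : ℝ) / ((q : ℝ) ^ 2 * t) : ℝ)) (𝓝[>] (0 : ℝ))
      (comap Complex.im atTop) := by
  rw [tendsto_comap_iff]
  have hq' : (q : ℝ) ≠ 0 := by exact_mod_cast hq
  have hD' : (0 : ℝ) < ((p * y - x * q : ℤ) : ℝ) := by exact_mod_cast hD
  have k : Tendsto (fun t : ℝ => ((p * y - x * q : ℤ) : ℝ) / (q : ℝ) ^ 2 * t⁻¹) (𝓝[>] (0 : ℝ))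
      atTop := tendsto_inv_nhdsGT_zero.const_mul_atTop (by positivity)
  refine k.congr ?_
  intro t
  have him : (-(y : ℂ) / (q : ℂ)).im = 0 := by
    have : -(y : ℂ) / (q : ℂ) = ((-(y : ℝ) / (q : ℝ) : ℝ) : ℂ) := by push_cast; ring
    rw [this, Complex.ofReal_im]
  simp only [Function.comp, Complex.add_im, him, Complex.mul_im, Complex.I_re, Complex.I_im,
    Complex.ofReal_re, Complex.ofReal_im, zero_mul, one_mul, zero_add]
  rw [div_mul_eq_div_div, div_eq_mul_inv _ t]

/-- the limit is `FC` -/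
theorem flim_FC (h1 : ST_QDIF) (h2 : ST_HERM) (M : ℕ) (b : ℕ → ℂ) (hM : 1 ≤ M) (hb : Cusp M b)
    (p x q y : ℤ) (hD : 0 < p * y - x * q) :
    Tendsto (fun z : ℂ => Fs b (mo p x q y z)) (comap Complex.im atTop) (𝓝 (FC b p q)) ∧
    (q ≠ 0 → Tendsto (fun t : ℝ => Fs b ((p : ℂ) / (q : ℂ) + I * (t : ℂ))) (𝓝[>] (0 : ℝ))
      (𝓝 (FC b p q))) := by
  obtain ⟨⟨L, hL⟩, -⟩ := flim_gen h1 h2 M b hM hb p x q y hD
  by_cases hq : q = 0
  · refine ⟨?_, fun h => absurd hq h⟩
    have hFC : FC b p q = 0 := by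
      unfold FC
      rw [if_pos hq]
    rw [hFC]
    subst hq
    obtain ⟨_, _, _, _, _, K, hK⟩ := h1 M b hM hb
    have hD' : (0 : ℝ) < (p : ℝ) * y := by
      have : 0 < p * y := by simpa using hD
      exact_mod_cast this
    have hy : (y : ℝ) ≠ 0 := by
      rintro h
      rw [h, mul_zero] at hD'
      exact lt_irrefl _ hD'
    have hpy : (0 : ℝ) < (p : ℝ) / y := by
      have : (p : ℝ) / y = p * y / y ^ 2 := by field_simp
      rw [this]
      positivity
    have him : ∀ z : ℂ, (mo p x 0 y z).im = (p : ℝ) / y * z.im := by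
      intro z
      rw [flim_im]
      simp only [Int.cast_zero, zero_mul, zero_add, Complex.normSq_apply,
        Complex.intCast_re, Complex.intCast_im, mul_zero, add_zero, sub_zero, Int.cast_mul]
      field_simp
    have hmap : Tendsto (fun z : ℂ => (mo p x 0 y z).im) (comap Complex.im atTop) atTop := by
      have k : Tendsto (fun s : ℝ => (p : ℝ) / (y : ℝ) * s) atTop atTop :=
        tendsto_id.const_mul_atTop hpy
      refine (k.comp tendsto_comap).congr ?_
      intro z
      rw [him]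
      rfl
    have hlim : Tendsto (fun t : ℝ => K * Real.exp (-2 * Real.pi * t)) atTop (𝓝 0) := by
      have h3 : Tendsto (fun t : ℝ => Real.exp (-2 * Real.pi * t)) atTop (𝓝 0) := by
        refine Real.tendsto_exp_atBot.comp ?_
        refine tendsto_id.const_mul_atTop_of_neg ?_
        have := Real.pi_pos
        linarith
      simpa using h3.const_mul K
    refine squeeze_zero_norm' ?_ (hlim.comp hmap)
    filter_upwards [flim_ev, hmap.eventually_ge_atTop 1] with z hz hz1
    exact (hK _ (flim_mem p x 0 y hD z hz) hz1).2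
  · have hv : Tendsto (fun t : ℝ => Fs b ((p : ℂ) / (q : ℂ) + I * (t : ℂ))) (𝓝[>] (0 : ℝ))
        (𝓝 L) := by
      refine (hL.comp (flim_vert_tendsto p x q y hD hq)).congr' ?_
      filter_upwards [self_mem_nhdsWithin] with t ht
      simp only [Function.comp]
      rw [flim_vert p x q y hD hq t ht]
    have hFC : FC b p q = L := by
      unfold FC
      rw [if_neg hq]
      exact hv.limUnder_eq
    rw [hFC]
    exact ⟨hL, fun _ => hv⟩

theorem flim_hom (b : ℕ → ℂ) : Hom0 (FC b) := by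
  intro k p q hk
  unfold FC
  by_cases hq : q = 0
  · rw [if_pos hq, if_pos (by rw [hq, mul_zero])]
  · rw [if_neg hq, if_neg (mul_ne_zero hk hq)]
    have hk' : (k : ℂ) ≠ 0 := by exact_mod_cast hk
    have : ((k * p : ℤ) : ℂ) / ((k * q : ℤ) : ℂ) = (p : ℂ) / (q : ℂ) := by
      push_cast
      exact mul_div_mul_left _ _ hk'
    rw [this]

theorem flim_trans (h1 : ST_QDIF) (h2 : ST_HERM) (M : ℕ) (b : ℕ → ℂ) (hM : 1 ≤ M)
    (hb : Cusp M b) (p q r s : ℤ) (hG : G0 M p q r s) (τ : ℂ) (hτ : τ ∈ UH) :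
    Fs b (mo p q r s τ) - Fs b τ = FC b p r - FC b 1 0 := by
  obtain ⟨hdet, hdvd⟩ := hG
  have hpos : 0 < p * s - q * r := by rw [hdet]; exact one_pos
  have hconst := flim_const (fun z => Fs b (mo p q r s z) - Fs b z) (by
    intro z hz
    have k1 := flim_F_deriv h1 M b hM hb p q r s hdet z hz
    obtain ⟨_, _, h3, _⟩ := h1 M b hM hb
    have k2 := h3 z hz
    have k3 := k1.sub k2
    have k4 : 2 * (Real.pi : ℂ) * I * flim_g b p q r s z - 2 * (Real.pi : ℂ) * I * qs b z = 0 := by
      rw [flim_g_of b p q r s z hz]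
      have k5 := hb.inv z hz p q r s hdet hdvd
      have hd := flim_den p q r s hpos.ne' z hz
      unfold mo
      rw [k5]
      field_simp
      ring
    rw [k4] at k3
    exact k3)
  have l1 := (flim_FC h1 h2 M b hM hb p q r s hpos).1
  have l2 := (flim_FC h1 h2 M b hM hb 1 0 0 1 (by norm_num)).1
  have l3 := l1.sub l2
  have l4 : Tendsto (fun z : ℂ => Fs b (mo p q r s z) - Fs b (mo 1 0 0 1 z))
      (comap Complex.im atTop) (𝓝 (Fs b (mo p q r s τ) - Fs b τ)) := by
    refine tendsto_const_nhds.congr' ?_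
    filter_upwards [flim_ev] with z hz
    have e : mo 1 0 0 1 z = z := by simp [mo]
    rw [e]
    exact hconst τ hτ z hz
  have := flim_neBot
  exact tendsto_nhds_unique l4 l3

theorem st_FLIM (h1 : ST_QDIF) (h2 : ST_HERM) : ST_FLIM := by
  intro M b hM hb
  refine ⟨?_, flim_hom b, ?_, ?_, ?_⟩
  · intro p x q y hD
    exact ⟨(flim_FC h1 h2 M b hM hb p x q y hD).1, (flim_gen h1 h2 M b hM hb p x q y hD).2⟩
  · intro p q r s hG x y hxy
    obtain ⟨hdet, hdvd⟩ := hG
    have hpos : 0 < x * x - -y * y := by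
      rcases hxy with h | h
      · have : 0 < x ^ 2 := by positivity
        nlinarith [sq_nonneg y]
      · have : 0 < y ^ 2 := by positivity
        nlinarith [sq_nonneg x]
    have hpos2 : 0 < (p * x + q * y) * (r * -y + s * x) - (p * -y + q * x) * (r * x + s * y) := by
      have : (p * x + q * y) * (r * -y + s * x) - (p * -y + q * x) * (r * x + s * y)
          = (p * s - q * r) * (x * x - -y * y) := by ring
      rw [this, hdet, one_mul]
      exact hpos
    have l1 := (flim_FC h1 h2 M b hM hb x (-y) y x hpos).1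
    have l2 := (flim_FC h1 h2 M b hM hb (p * x + q * y) (p * -y + q * x) (r * x + s * y)
      (r * -y + s * x) hpos2).1
    have l3 : Tendsto (fun z : ℂ => Fs b (mo x (-y) y x z) + (FC b p r - FC b 1 0))
        (comap Complex.im atTop) (𝓝 (FC b (p * x + q * y) (r * x + s * y))) := by
      refine l2.congr' ?_
      filter_upwards [flim_ev] with z hz
      have hm := flim_mem x (-y) y x hpos z hz
      have k := flim_trans h1 h2 M b hM hb p q r s ⟨hdet, hdvd⟩ _ hm
      rw [flim_comp _ _ _ _ _ _ _ _ z (flim_den x (-y) y x hpos.ne' z hz)] at k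
      rw [← k]
      ring
    have := flim_neBot
    exact tendsto_nhds_unique l3 (l1.add_const _)
  · intro p q r s hG τ hτ
    exact flim_trans h1 h2 M b hM hb p q r s hG τ hτ
  · intro hreal p q
    by_cases hq : q = 0
    · unfold FC
      rw [if_pos hq, if_pos hq, map_zero]
    · have hpos : 0 < p * p - -q * q := by
        have : 0 < q ^ 2 := by positivity
        nlinarith [sq_nonneg p]
      have l1 := (flim_FC h1 h2 M b hM hb p (-q) q p hpos).2 hq
      have l2 : Tendsto (fun t : ℝ => (starRingEnd ℂ) (Fs b ((p : ℂ) / (q : ℂ) + I * (t : ℂ))))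
          (𝓝[>] (0 : ℝ)) (𝓝 ((starRingEnd ℂ) (FC b p q))) :=
        (Complex.continuous_conj.tendsto _).comp l1
      have l3 : FC b (-p) q = limUnder (𝓝[>] (0 : ℝ))
          (fun t : ℝ => Fs b (((-p : ℤ) : ℂ) / (q : ℂ) + I * (t : ℂ))) := by
        unfold FC
        rw [if_neg hq]
      rw [l3]
      refine Tendsto.limUnder_eq (l2.congr ?_)
      intro t
      unfold Fs
      rw [Complex.conj_tsum]
      refine tsum_congr ?_
      intro k
      rw [map_mul, map_div₀, hreal k, Complex.conj_natCast, ← Complex.exp_conj]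
      congr 2
      simp only [map_mul, map_add, map_div₀, Complex.conj_natCast, Complex.conj_I,
        Complex.conj_ofReal, Complex.conj_ofNat, map_intCast]
      push_cast
      ring

end Pool.Agent.Helper96.MP
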