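import Mathlib
import Pool.Agent.Helper96.MP.Defs
import Pool.Agent.Helper11.MP.FLIM

/-!
# FCUSP: the primitive of a cusp form as a function of `q` at each cusp
-/

set_option autoImplicit false

namespace Pool.Agent.Helper96.MP

open Complex MeasureTheory Filter Topology

theorem st_FCUSP (h1 : ST_QDIF) : ST_FCUSP := by
  intro M b hM hb p x q y hD
  obtain ⟨G, hG, hGz⟩ := flim_expansion h1 M b hM hb p x q y hD
  refine ⟨G, hG, ?_⟩
  intro z hz
  have := hGz z hz
  unfold Function.Periodic.qParam at this
  simpa using this

end Pool.Agent.Helper96.MP
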