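import Mathlib
import Pool.Agent.Helper96.MP.Defs
import Pool.Agent.Helper11.MP.FLIM

/-!
# INJ: a cusp form whose periods are purely imaginary vanishes

The real part `U` of the primitive is `Γ₀(N)`-invariant; by the expansions at the cusps it attains
its supremum, and the maximum principle makes it constant.
-/

set_option autoImplicit false

namespace Pool.Agent.Helper96.MP

open Complex MeasureTheory Filter Topology
open scoped MatrixGroups

theorem inj_det (g : SL(2, ℤ)) : g 0 0 * g 1 1 - g 0 1 * g 1 0 = 1 := by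
  have := g.det_coe
  rw [Matrix.det_fin_two] at this
  exact this

theorem inj_mem (g : SL(2, ℤ)) (z : ℂ) (hz : z ∈ UH) : mob g z ∈ UH :=
  flim_mem _ _ _ _ (by rw [inj_det g]; exact one_pos) z hz

theorem inj_mul (g h : SL(2, ℤ)) (z : ℂ) (hz : z ∈ UH) : mob (g * h) z = mob g (mob h z) := by
  unfold mob
  rw [flim_comp _ _ _ _ _ _ _ _ z
    (flim_den (h 0 0) (h 0 1) (h 1 0) (h 1 1) (by rw [inj_det h]; exact one_ne_zero) z hz)]
  have e : ∀ i j, (g * h) i j = g i 0 * h 0 j + g i 1 * h 1 j := by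
    intro i j
    rw [Matrix.SpecialLinearGroup.coe_mul, Matrix.mul_apply, Fin.sum_univ_two]
  rw [e, e, e, e]

theorem inj_one (z : ℂ) : mob 1 z = z := by
  unfold mob mo
  simp

theorem inj_smul (g : SL(2, ℤ)) (z : UpperHalfPlane) : ((g • z : UpperHalfPlane) : ℂ) = mob g z := by
  rw [UpperHalfPlane.coe_specialLinearGroup_apply]
  unfold mob mo
  simp

theorem st_INJ (hF : ST_FCUSP) (hQ : ST_QDIF) (hU : ST_QUNI) (hL : ST_FLIM) : ST_INJ := by
  intro N b hN hb hre
  have hN0 : (0 : ℝ) < (N : ℝ) := by exact_mod_cast hN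
  have : NeZero N := ⟨by omega⟩
  obtain ⟨-, -, -, htr, -⟩ := hL N b hN hb
  -- invariance
  have hinv : ∀ g ∈ CongruenceSubgroup.Gamma0 N, ∀ z ∈ UH, (Fs b (mob g z)).re = (Fs b z).re := by
    intro g hg z hz
    have hdvd : (N : ℤ) ∣ g 1 0 := by
      rw [CongruenceSubgroup.Gamma0_mem] at hg
      exact (ZMod.intCast_zmod_eq_zero_iff_dvd _ _).mp hg
    have hG : G0 N (g 0 0) (g 0 1) (g 1 0) (g 1 1) := ⟨inj_det g, hdvd⟩
    have h1 := htr _ _ _ _ hG z hz
    have h2 := hre _ _ _ _ hG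
    rw [← h1, Complex.sub_re] at h2
    unfold mob
    linarith
  -- representatives
  have hfin : Finite (SL(2, ℤ) ⧸ CongruenceSubgroup.Gamma0 N) := inferInstance
  let σ : (SL(2, ℤ) ⧸ CongruenceSubgroup.Gamma0 N) → SL(2, ℤ) := fun c => (Quotient.out c)⁻¹
  have hσ : ∀ g : SL(2, ℤ), ∃ c, ∃ h ∈ CongruenceSubgroup.Gamma0 N, g = h * σ c := by
    intro g
    obtain ⟨h, hh⟩ := QuotientGroup.mk_out_eq_mul (CongruenceSubgroup.Gamma0 N) g⁻¹
    refine ⟨QuotientGroup.mk g⁻¹, h.1, h.2, ?_⟩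
    change g = h.1 * (Quotient.out (QuotientGroup.mk g⁻¹ : SL(2, ℤ) ⧸ CongruenceSubgroup.Gamma0 N))⁻¹
    rw [hh]
    group
  have hGex : ∀ c, ∃ G : ℂ → ℂ, DifferentiableOn ℂ G (Metric.ball 0 1) ∧
      ∀ z ∈ UH, G (exp (2 * (Real.pi : ℂ) * I * z / (N : ℂ))) = Fs b (mob (σ c) z) :=
    fun c => hF N b hN hb _ _ _ _ (inj_det (σ c))
  choose G hGd hGz using hGex
  set ρ : ℝ := Real.exp (-2 * Real.pi * (1 / 2) / N) with hρ
  have hρ1 : ρ < 1 := by
    rw [hρ, Real.exp_lt_one_iff]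
    have : 0 < Real.pi / N := by positivity
    have e : -2 * Real.pi * (1 / 2) / (N : ℝ) = -(Real.pi / N) := by ring
    rw [e]
    linarith
  have hρ0 : 0 ≤ ρ := (Real.exp_pos _).le
  have hsub : Metric.closedBall (0 : ℂ) ρ ⊆ Metric.ball 0 1 := Metric.closedBall_subset_ball hρ1
  have hmax : ∀ c, ∃ w ∈ Metric.closedBall (0 : ℂ) ρ,
      ∀ v ∈ Metric.closedBall (0 : ℂ) ρ, (G c v).re ≤ (G c w).re := by
    intro c
    have hcont : ContinuousOn (fun v => (G c v).re) (Metric.closedBall (0 : ℂ) ρ) :=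
      Complex.continuous_re.comp_continuousOn ((hGd c).continuousOn.mono hsub)
    obtain ⟨w, hw, hwm⟩ := (isCompact_closedBall (0 : ℂ) ρ).exists_isMaxOn
      ⟨0, Metric.mem_closedBall_self hρ0⟩ hcont
    exact ⟨w, hw, fun v hv => hwm hv⟩
  choose w hwK hwm using hmax
  obtain ⟨c0, hc0⟩ := Finite.exists_max (fun c => (G c (w c)).re)
  have hnorm : ∀ z : ℂ, exp (2 * (Real.pi : ℂ) * I * z / (N : ℂ))
      = Function.Periodic.qParam (N : ℝ) z := by
    intro z
    unfold Function.Periodic.qParam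
    simp
  have hUS : ∀ z ∈ UH, (Fs b z).re ≤ (G c0 (w c0)).re := by
    intro z hz
    obtain ⟨γ, hγ⟩ := ModularGroup.exists_one_half_le_im_smul ⟨z, hz⟩
    obtain ⟨c, h, hh, hgh⟩ := hσ γ⁻¹
    have hz' : mob γ z ∈ UH := inj_mem γ z hz
    have e1 : z = mob h (mob (σ c) (mob γ z)) := by
      rw [← inj_mul h (σ c) _ hz', ← hgh, ← inj_mul γ⁻¹ γ z hz, inv_mul_cancel, inj_one]
    have e2 : (Fs b z).re = (G c (exp (2 * (Real.pi : ℂ) * I * (mob γ z) / (N : ℂ)))).re := by
      conv_lhs => rw [e1]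
      rw [hinv h hh _ (inj_mem (σ c) _ hz'), hGz c _ hz']
    rw [e2]
    refine le_trans (hwm c _ ?_) (hc0 c)
    rw [mem_closedBall_zero_iff, hnorm, Function.Periodic.norm_qParam, hρ]
    refine Real.exp_le_exp.mpr ?_
    have e3 : (1 / 2 : ℝ) ≤ (mob γ z).im := by
      have := inj_smul γ ⟨z, hz⟩
      rw [← this]
      exact hγ
    rw [div_le_div_iff_of_pos_right hN0]
    have := Real.pi_pos
    nlinarith
  have hball : ∀ v ∈ Metric.ball (0 : ℂ) 1, (G c0 v).re ≤ (G c0 (w c0)).re := by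
    intro v hv
    by_cases hv0 : v = 0
    · rw [hv0]
      exact hwm c0 0 (Metric.mem_closedBall_self hρ0)
    · have e := Function.Periodic.qParam_right_inv hN0.ne' hv0
      have hi : Function.Periodic.invQParam (N : ℝ) v ∈ UH := by
        change 0 < (Function.Periodic.invQParam (N : ℝ) v).im
        rw [← Function.Periodic.norm_qParam_lt_iff hN0, e]
        simpa using hv
      have e2 := hGz c0 _ hi
      rw [hnorm, e] at e2
      rw [e2]
      exact hUS _ (inj_mem _ _ hi)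
  -- maximum principle
  have hw0 : w c0 ∈ Metric.ball (0 : ℂ) 1 := hsub (hwK c0)
  have hexpd : DifferentiableOn ℂ (fun v => exp (G c0 v)) (Metric.ball 0 1) := (hGd c0).cexp
  have hmaxon : IsMaxOn (norm ∘ fun v => exp (G c0 v)) (Metric.ball 0 1) (w c0) := by
    intro v hv
    simp only [Function.comp, Set.mem_ofPred_eq, Complex.norm_exp]
    exact Real.exp_le_exp.mpr (hball v hv)
  have heq := Complex.eqOn_of_isPreconnected_of_isMaxOn_norm (convex_ball (0 : ℂ) 1).isPreconnected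
    Metric.isOpen_ball hexpd hw0 hmaxon
  have hG' : ∀ v ∈ Metric.ball (0 : ℂ) 1, HasDerivAt (G c0) 0 v := by
    intro v hv
    have hnb : Metric.ball (0 : ℂ) 1 ∈ 𝓝 v := Metric.isOpen_ball.mem_nhds hv
    have hd : DifferentiableAt ℂ (G c0) v := (hGd c0 v hv).differentiableAt hnb
    have h1 : HasDerivAt (fun v => exp (G c0 v)) (exp (G c0 v) * deriv (G c0) v) v :=
      hd.hasDerivAt.cexp
    have h2 : HasDerivAt (fun v => exp (G c0 v)) 0 v := by
      refine (hasDerivAt_const v (exp (G c0 (w c0)))).congr_of_eventuallyEq ?_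
      filter_upwards [hnb] with u hu
      exact heq hu
    have h3 := h1.unique h2
    have h4 : deriv (G c0) v = 0 := by
      rcases mul_eq_zero.mp h3 with h | h
      · exact absurd h (exp_ne_zero _)
      · exact h
    rw [← h4]
    exact hd.hasDerivAt
  have hqs : ∀ z ∈ UH, flim_g b (σ c0 0 0) (σ c0 0 1) (σ c0 1 0) (σ c0 1 1) z = 0 := by
    intro z hz
    have h1 := flim_F_deriv hQ N b hN hb _ _ _ _ (inj_det (σ c0)) z hz
    have hq1 : Function.Periodic.qParam (N : ℝ) z ∈ Metric.ball (0 : ℂ) 1 := by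
      rw [mem_ball_zero_iff]
      exact Function.Periodic.norm_qParam_lt_one hN0 hz
    have h2 : HasDerivAt (fun z => G c0 (Function.Periodic.qParam (N : ℝ) z)) 0 z := by
      have h3 := (hG' _ hq1).comp z
        ((Function.Periodic.differentiable_qParam (h := (N : ℝ))) z).hasDerivAt
      rw [zero_mul] at h3
      exact h3
    have h4 : HasDerivAt (fun z => Fs b (mo (σ c0 0 0) (σ c0 0 1) (σ c0 1 0) (σ c0 1 1) z)) 0 z := by
      refine h2.congr_of_eventuallyEq ?_
      filter_upwards [flim_isOpen.mem_nhds hz] with u hu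
      have := hGz c0 u hu
      rw [hnorm] at this
      exact this.symm
    have h5 := h1.unique h4
    rcases mul_eq_zero.mp h5 with h | h
    · exact absurd h Complex.two_pi_I_ne_zero
    · exact h
  have hqs0 : ∀ τ ∈ UH, qs b τ = 0 := by
    intro τ hτ
    have hz := inj_mem (σ c0)⁻¹ τ hτ
    have h1 := hqs _ hz
    rw [flim_g_of _ _ _ _ _ _ hz] at h1
    have hd := flim_den _ _ _ _ (by rw [inj_det (σ c0)]; exact one_ne_zero)
      (mob (σ c0)⁻¹ τ) hz
    rcases div_eq_zero_iff.mp h1 with h | h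
    · have e : mo (σ c0 0 0) (σ c0 0 1) (σ c0 1 0) (σ c0 1 1) (mob (σ c0)⁻¹ τ) = τ := by
        change mob (σ c0) (mob (σ c0)⁻¹ τ) = τ
        rw [← inj_mul _ _ τ hτ, mul_inv_cancel, inj_one]
      rw [e] at h
      exact h
    · exact absurd h (pow_ne_zero 2 hd)
  have hz : b = fun _ => 0 := by
    refine hU b (fun _ => 0) (fun τ hτ => hb.sum τ hτ) ?_ ?_
    · intro τ _
      simp
    · intro τ hτ
      rw [hqs0 τ hτ]
      unfold qs
      simp
  intro n
  rw [hz]

end Pool.Agent.Helper96.MP
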