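import Pool.Agent.Helper96.MP.DefsB

/-!
# MP_bde085_nt, module KPROD: integral bases of tensor products
-/

set_option autoImplicit false

namespace Pool.Agent.Helper11.MP

open Pool.Agent.Helper96.MP

/-- Gram determinants are nonnegative -/
theorem gram_det_nonneg {ι P : Type} [Fintype ι] [DecidableEq ι] [Fintype P] (Y : ι → P → ℝ) :
    0 ≤ (Matrix.of (fun i j : ι => ∑ x, Y i x * Y j x)).det := by
  have h : (Matrix.of (fun i j : ι => ∑ x, Y i x * Y j x)) =
      (Matrix.of Y) * (Matrix.of Y).conjTranspose := by
    ext i j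
    simp [Matrix.mul_apply]
  rw [h]
  exact (Matrix.posSemidef_self_mul_conjTranspose _).det_nonneg

theorem st_KPROD : ST_KPROD := by
  intro P Q _ _ V W r s D E hV hW hD hE U hU
  obtain ⟨ι, fι, dι, b, hbc, hbi, hbs, hbd⟩ := hV
  obtain ⟨κ, fκ, dκ, c, hcc, hci, hcs, hcd⟩ := hW
  refine ⟨ι × κ, inferInstance, inferInstance, fun p z => b p.1 z.1 * c p.2 z.2, ?_, ?_, ?_, ?_⟩
  · rw [Fintype.card_prod, hbc, hcc]
  · rw [Fintype.linearIndependent_iff]
    intro a ha
    rintro ⟨i, k⟩
    have h1 : ∀ y, ∀ i, ∑ k, a (i, k) * (c k y : ℝ) = 0 := by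
      intro y
      rw [Fintype.linearIndependent_iff] at hbi
      apply hbi (fun i => ∑ k, a (i, k) * (c k y : ℝ))
      funext x
      have := congrFun ha (x, y)
      simp only [Finset.sum_apply, Pi.smul_apply, smul_eq_mul, Pi.zero_apply,
        Fintype.sum_prod_type] at this ⊢
      rw [← this]
      refine Finset.sum_congr rfl (fun i _ => ?_)
      rw [Finset.sum_mul]
      refine Finset.sum_congr rfl (fun k _ => ?_)
      push_cast
      ring
    rw [Fintype.linearIndependent_iff] at hci
    apply hci (fun k => a (i, k))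
    funext y
    have := h1 y i
    simpa [Finset.sum_apply, Pi.smul_apply, smul_eq_mul] using this
  · apply le_antisymm
    · rw [Submodule.span_le]
      rintro _ ⟨⟨i, k⟩, rfl⟩
      rw [SetLike.mem_coe, hU]
      constructor
      · intro y
        have h : (fun x => (((b i x * c k y : ℤ)) : ℝ)) = (c k y : ℝ) • (fun x => (b i x : ℝ)) := by
          funext x
          simp only [Pi.smul_apply, smul_eq_mul]
          push_cast
          ring
        show (fun x => (((b i x * c k y : ℤ)) : ℝ)) ∈ V
        rw [h, ← hbs]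
        exact Submodule.smul_mem _ _ (Submodule.subset_span ⟨i, rfl⟩)
      · intro x
        have h : (fun y => (((b i x * c k y : ℤ)) : ℝ)) = (b i x : ℝ) • (fun y => (c k y : ℝ)) := by
          funext y
          simp only [Pi.smul_apply, smul_eq_mul]
          push_cast
          ring
        show (fun y => (((b i x * c k y : ℤ)) : ℝ)) ∈ W
        rw [h, ← hcs]
        exact Submodule.smul_mem _ _ (Submodule.subset_span ⟨k, rfl⟩)
    · intro g hg
      rw [hU] at hg
      obtain ⟨hg1, hg2⟩ := hg
      -- coordinates with respect to `b`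
      have h1 : ∀ y, ∃ a : ι → ℝ, ∑ i, a i • (fun x => (b i x : ℝ)) = fun x => g (x, y) := by
        intro y
        have := hg1 y
        rw [← hbs] at this
        exact (Submodule.mem_span_range_iff_exists_fun ℝ).1 this
      choose a ha using h1
      -- dual functionals
      have h2 : ∃ G : ι → P → ℝ, ∀ i j, ∑ x, G i x * (b j x : ℝ) = if i = j then 1 else 0 := by
        classical
        have h3 : ∃ L : (P → ℝ) →ₗ[ℝ] (ι → ℝ), ∀ j, L (fun x => (b j x : ℝ)) = Pi.single j 1 := by
          obtain ⟨L, hL⟩ := LinearMap.exists_leftInverse_of_injective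
            (Fintype.linearCombination ℝ (fun (i : ι) (x : P) => (b i x : ℝ)))
            (by
              rw [LinearMap.ker_eq_bot]
              exact hbi.fintypeLinearCombination_injective)
          refine ⟨L, fun j => ?_⟩
          have := LinearMap.congr_fun hL (Pi.single j 1)
          simpa [Fintype.linearCombination_apply_single] using this
        obtain ⟨L, hL⟩ := h3
        refine ⟨fun i x => L (Pi.single x 1) i, fun i j => ?_⟩
        have h4 : (fun x => (b j x : ℝ)) = ∑ x, (b j x : ℝ) • (Pi.single x (1 : ℝ) : P → ℝ) := by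
          funext z
          simp [Finset.sum_apply, Pi.single_apply]
        have h5 := congrFun (hL j) i
        rw [h4, map_sum] at h5
        simp only [map_smul, Finset.sum_apply, Pi.smul_apply, smul_eq_mul] at h5
        rw [Pi.single_apply] at h5
        rw [← h5]
        exact Finset.sum_congr rfl (fun x _ => by ring)
      obtain ⟨G, hG⟩ := h2
      have h6 : ∀ i, (fun y => a y i) = ∑ x, G i x • (fun y => g (x, y)) := by
        intro i
        funext y
        have : ∀ x, g (x, y) = ∑ j, a y j * (b j x : ℝ) := by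
          intro x
          have := congrFun (ha y) x
          simp only [Finset.sum_apply, Pi.smul_apply, smul_eq_mul] at this
          exact this.symm
        simp only [Finset.sum_apply, Pi.smul_apply, smul_eq_mul, this]
        simp only [Finset.mul_sum]
        rw [Finset.sum_comm]
        have h7 : ∀ j, ∑ x, G i x * (a y j * (b j x : ℝ)) = a y j * (if i = j then 1 else 0) := by
          intro j
          rw [← hG i j, Finset.mul_sum]
          exact Finset.sum_congr rfl (fun x _ => by ring)
        rw [Finset.sum_congr rfl (fun j _ => h7 j)]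
        simp
      have h8 : ∀ i, (fun y => a y i) ∈ W := by
        intro i
        rw [h6]
        exact Submodule.sum_mem _ (fun x _ => Submodule.smul_mem _ _ (hg2 x))
      have h9 : ∀ i, ∃ d : κ → ℝ, ∑ k, d k • (fun y => (c k y : ℝ)) = fun y => a y i := by
        intro i
        have := h8 i
        rw [← hcs] at this
        exact (Submodule.mem_span_range_iff_exists_fun ℝ).1 this
      choose d hd using h9
      rw [Submodule.mem_span_range_iff_exists_fun ℝ]
      refine ⟨fun p => d p.1 p.2, ?_⟩
      funext ⟨x, y⟩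
      have h10 := congrFun (ha y) x
      simp only [Finset.sum_apply, Pi.smul_apply, smul_eq_mul] at h10 ⊢
      rw [← h10, Fintype.sum_prod_type]
      refine Finset.sum_congr rfl (fun i _ => ?_)
      have h11 := congrFun (hd i) y
      simp only [Finset.sum_apply, Pi.smul_apply, smul_eq_mul] at h11
      rw [← h11, Finset.sum_mul]
      refine Finset.sum_congr rfl (fun k _ => ?_)
      push_cast
      ring
  · have h : (Matrix.of (fun p p' : ι × κ => ∑ z : P × Q,
        (((b p.1 z.1 * c p.2 z.2 : ℤ)) : ℝ) * (((b p'.1 z.1 * c p'.2 z.2 : ℤ)) : ℝ))) =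
        Matrix.kroneckerMap (fun u v => u * v)
          (Matrix.of (fun i j : ι => ∑ x, (b i x : ℝ) * (b j x : ℝ)))
          (Matrix.of (fun i j : κ => ∑ x, (c i x : ℝ) * (c j x : ℝ))) := by
      ext ⟨i, k⟩ ⟨j, l⟩
      simp only [Matrix.of_apply, Matrix.kroneckerMap_apply]
      rw [Fintype.sum_prod_type, Finset.sum_mul_sum]
      refine Finset.sum_congr rfl (fun x _ => Finset.sum_congr rfl (fun y _ => ?_))
      push_cast
      ring
    show (Matrix.of (fun p p' : ι × κ => ∑ z : P × Q,
        (((b p.1 z.1 * c p.2 z.2 : ℤ)) : ℝ) * (((b p'.1 z.1 * c p'.2 z.2 : ℤ)) : ℝ))).det ≤ _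
    rw [h]
    have h2 := Matrix.det_kronecker
      (Matrix.of (fun i j : ι => ∑ x, (b i x : ℝ) * (b j x : ℝ)))
      (Matrix.of (fun i j : κ => ∑ x, (c i x : ℝ) * (c j x : ℝ)))
    have h3 := gram_det_nonneg (fun (i : ι) (x : P) => (b i x : ℝ))
    have h4 := gram_det_nonneg (fun (i : κ) (x : Q) => (c i x : ℝ))
    have h5 : (Matrix.kroneckerMap (fun u v => u * v)
          (Matrix.of (fun i j : ι => ∑ x, (b i x : ℝ) * (b j x : ℝ)))
          (Matrix.of (fun i j : κ => ∑ x, (c i x : ℝ) * (c j x : ℝ)))).det =
        (Matrix.of (fun i j : ι => ∑ x, (b i x : ℝ) * (b j x : ℝ))).det ^ Fintype.card κ *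
        (Matrix.of (fun i j : κ => ∑ x, (c i x : ℝ) * (c j x : ℝ))).det ^ Fintype.card ι := h2
    rw [h5, hcc, hbc]
    exact mul_le_mul (pow_le_pow_left₀ h3 hbd s) (pow_le_pow_left₀ h4 hcd r) (pow_nonneg h4 r)
      (pow_nonneg (le_trans zero_le_one hD) s)

end Pool.Agent.Helper11.MP
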