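import Mathlib
import Pool.Agent.Helper96.MP.Defs
import Pool.Agent.Helper11.MP.FLIM

/-!
# QEXP: a function transforming like a cusp form is one
-/

set_option autoImplicit false

namespace Pool.Agent.Helper96.MP

open Complex MeasureTheory Filter Topology

theorem qexp_isOpen : IsOpen UH := isOpen_lt continuous_const Complex.continuous_im

theorem qexp_ev : ∀ᶠ z : ℂ in comap Complex.im atTop, z ∈ UH :=
  (eventually_gt_atTop (0 : ℝ)).comap Complex.im

/-- restriction of `g` to the upper half plane -/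
noncomputable def qexp_g (g : ℂ → ℂ) (z : ℂ) : ℂ := by
  classical
  exact if 0 < z.im then g z else 0

theorem qexp_g_of (g : ℂ → ℂ) (z : ℂ) (hz : z ∈ UH) : qexp_g g z = g z := by
  have hz' : 0 < z.im := hz
  unfold qexp_g
  rw [if_pos hz']

theorem st_QEXP : ST_QEXP := by
  intro M g hM hg hinv hbdd
  obtain ⟨B, hB⟩ := hbdd
  have hper1 : ∀ z ∈ UH, g (z + 1) = g z := by
    intro z hz
    have h := hinv z hz 1 1 0 1 ⟨by norm_num, dvd_zero _⟩
    have e : mo 1 1 0 1 z = z + 1 := by simp [mo]
    rw [e] at h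
    rw [h]
    simp
  have hper : Function.Periodic (qexp_g g) ((1 : ℝ) : ℂ) := by
    intro z
    by_cases hz : 0 < z.im
    · have hz' : z + ((1 : ℝ) : ℂ) ∈ UH := by
        change 0 < (z + ((1 : ℝ) : ℂ)).im
        simpa using hz
      rw [qexp_g_of g _ hz', qexp_g_of g z hz]
      have := hper1 z hz
      simpa using this
    · have hz' : ¬ 0 < (z + ((1 : ℝ) : ℂ)).im := by simpa using hz
      unfold qexp_g
      rw [if_neg hz, if_neg hz']
  have hdiff : ∀ z ∈ UH, DifferentiableAt ℂ (qexp_g g) z := by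
    intro z hz
    refine ((hg z hz).differentiableAt (qexp_isOpen.mem_nhds hz)).congr_of_eventuallyEq ?_
    filter_upwards [qexp_isOpen.mem_nhds hz] with w hw
    exact qexp_g_of g w hw
  have hzero : ZeroAtFilter (comap Complex.im atTop) (qexp_g g) := by
    unfold ZeroAtFilter
    rw [tendsto_zero_iff_norm_tendsto_zero]
    have h0 : Tendsto (fun z : ℂ => B / z.im) (comap Complex.im atTop) (𝓝 0) :=
      (tendsto_const_nhds.div_atTop tendsto_id).comp tendsto_comap
    refine squeeze_zero' (Eventually.of_forall fun z => norm_nonneg _) ?_ h0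
    filter_upwards [qexp_ev] with z hz
    have hz' : 0 < z.im := hz
    rw [le_div_iff₀ hz', mul_comm, qexp_g_of g z hz]
    exact hB z hz
  have hhol : ∀ᶠ z : ℂ in comap Complex.im atTop, DifferentiableAt ℂ (qexp_g g) z :=
    qexp_ev.mono hdiff
  set Φ : ℂ → ℂ := Function.Periodic.cuspFunction (1 : ℝ) (qexp_g g) with hΦ
  have hΦd : DifferentiableOn ℂ Φ (Metric.ball 0 1) := by
    intro w hw
    refine DifferentiableAt.differentiableWithinAt ?_
    by_cases h0 : w = 0
    · rw [h0]
      exact Function.Periodic.differentiableAt_cuspFunction_zero one_pos hper hhol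
        hzero.boundedAtFilter
    · have e := Function.Periodic.qParam_right_inv (one_ne_zero : (1 : ℝ) ≠ 0) h0
      have hi : 0 < (Function.Periodic.invQParam (1 : ℝ) w).im := by
        rw [← Function.Periodic.norm_qParam_lt_iff one_pos, e]
        simpa using hw
      rw [← e]
      exact Function.Periodic.differentiableAt_cuspFunction one_ne_zero hper (hdiff _ hi)
  have hsum : ∀ τ ∈ UH, HasSum (fun k : ℕ => ((k.factorial : ℂ)⁻¹ * iteratedDeriv k Φ 0)
      * exp (2 * (Real.pi : ℂ) * I * (k : ℂ) * τ)) (g τ) := by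
    intro τ hτ
    have hq : Function.Periodic.qParam (1 : ℝ) τ ∈ Metric.ball (0 : ℂ) 1 := by
      rw [mem_ball_zero_iff]
      exact Function.Periodic.norm_qParam_lt_one one_pos hτ
    have h := Complex.hasSum_taylorSeries_on_ball hΦd hq
    rw [hΦ, Function.Periodic.eq_cuspFunction one_ne_zero hper, qexp_g_of g τ hτ, ← hΦ] at h
    have hfun : (fun k : ℕ => ((k.factorial : ℂ)⁻¹ * iteratedDeriv k Φ 0)
        * exp (2 * (Real.pi : ℂ) * I * (k : ℂ) * τ))
        = fun n : ℕ => (n.factorial : ℂ)⁻¹ • (Function.Periodic.qParam (1 : ℝ) τ - 0) ^ n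
          • iteratedDeriv n Φ 0 := by
      funext k
      have e : exp (2 * (Real.pi : ℂ) * I * (k : ℂ) * τ)
          = Function.Periodic.qParam (1 : ℝ) τ ^ k := by
        unfold Function.Periodic.qParam
        rw [← Complex.exp_nat_mul]
        congr 1
        push_cast
        ring
      rw [e, sub_zero, smul_eq_mul, smul_eq_mul]
      ring
    rw [hfun]
    exact h
  have hqs : ∀ τ ∈ UH, qs (fun k => (k.factorial : ℂ)⁻¹ * iteratedDeriv k Φ 0) τ = g τ :=
    fun τ hτ => (hsum τ hτ).tsum_eq
  refine ⟨fun k => (k.factorial : ℂ)⁻¹ * iteratedDeriv k Φ 0, ⟨?_, ?_, ?_⟩, hqs⟩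
  · intro τ hτ
    exact (hsum τ hτ).summable
  · intro τ hτ p q r s hdet hdvd
    have hm := flim_mem p q r s (by rw [hdet]; exact one_pos) τ hτ
    have h1 := hinv τ hτ p q r s ⟨hdet, hdvd⟩
    have h2 := hqs _ hm
    have h3 := hqs τ hτ
    rw [h3, ← h1]
    exact h2
  · refine ⟨B, fun τ hτ => ?_⟩
    rw [hqs τ hτ]
    exact hB τ hτ

end Pool.Agent.Helper96.MP
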