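import Mathlib
import Pool.Agent.Helper96.MP.Defs
import Pool.Agent.Helper11.MP.FLIM

/-!
# QUNI: uniqueness of the coefficients of a q-series
-/

set_option autoImplicit false

namespace Pool.Agent.Helper96.MP

open Complex MeasureTheory Filter Topology

theorem quni_zero (c : ℕ → ℂ)
    (hs : ∀ τ ∈ UH, Summable (fun k : ℕ => c k * exp (2 * (Real.pi : ℂ) * I * (k : ℂ) * τ)))
    (h0 : ∀ τ ∈ UH, qs c τ = 0) : c = 0 := by
  have hw : ∀ w : ℂ, w ≠ 0 → ‖w‖ < 1 → ∃ τ ∈ UH, ∀ k : ℕ,
      exp (2 * (Real.pi : ℂ) * I * (k : ℂ) * τ) = w ^ k := by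
    intro w hw0 hw1
    have e := Function.Periodic.qParam_right_inv (one_ne_zero : (1 : ℝ) ≠ 0) hw0
    refine ⟨Function.Periodic.invQParam (1 : ℝ) w, ?_, ?_⟩
    · change 0 < (Function.Periodic.invQParam (1 : ℝ) w).im
      rw [← Function.Periodic.norm_qParam_lt_iff one_pos, e]
      simpa using hw1
    · intro k
      conv_rhs => rw [← e]
      unfold Function.Periodic.qParam
      rw [← Complex.exp_nat_mul]
      congr 1
      push_cast
      ring
  set p : FormalMultilinearSeries ℂ ℂ ℂ := FormalMultilinearSeries.ofScalars ℂ c with hp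
  have hrad : (0 : ENNReal) < p.radius := by
    have h1 : ((1 / 2 : NNReal) : ENNReal) ≤ p.radius := by
      refine p.le_radius_of_summable ?_
      obtain ⟨τ, hτ, hk⟩ := hw (1 / 2 : ℂ) (by norm_num) (by norm_num)
      have h2 := (hs τ hτ).norm
      refine h2.congr ?_
      intro k
      rw [hk k, hp, FormalMultilinearSeries.ofScalars_norm, norm_mul, norm_pow]
      norm_num
    exact lt_of_lt_of_le (by norm_num) h1
  have hball := p.hasFPowerSeriesOnBall hrad
  have hsum : ∀ w : ℂ, w ≠ 0 → ‖w‖ < 1 → p.sum w = 0 := by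
    intro w hw0 hw1
    obtain ⟨τ, hτ, hk⟩ := hw w hw0 hw1
    have h2 := h0 τ hτ
    unfold qs at h2
    have h3 : p.sum w = ∑' n : ℕ, c n • w ^ n := FormalMultilinearSeries.ofScalars_sum_eq c w
    rw [h3, ← h2]
    refine tsum_congr ?_
    intro k
    rw [hk k, smul_eq_mul]
  have hev : ∀ᶠ w in 𝓝[≠] (0 : ℂ), p.sum w = 0 := by
    have h1 : ∀ᶠ w : ℂ in 𝓝[≠] (0 : ℂ), ‖w‖ < 1 := by
      refine (Metric.ball_mem_nhds (0 : ℂ) one_pos |> fun h => ?_)
      filter_upwards [nhdsWithin_le_nhds h] with w hw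
      simpa using hw
    filter_upwards [h1, self_mem_nhdsWithin] with w hw1 hw0
    exact hsum w hw0 hw1
  have hev2 : ∀ᶠ w in 𝓝 (0 : ℂ), p.sum w = 0 :=
    hball.analyticAt.frequently_zero_iff_eventually_zero.mp hev.frequently
  have hp0 : p = 0 := hball.hasFPowerSeriesAt.eq_zero_of_eventually hev2
  exact (FormalMultilinearSeries.ofScalars_series_eq_zero (E := ℂ) (c := c)).mp hp0

theorem st_QUNI : ST_QUNI := by
  intro b b' hb hb' h
  have h1 := quni_zero (fun k => b k - b' k) (by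
    intro τ hτ
    refine ((hb τ hτ).sub (hb' τ hτ)).congr ?_
    intro k
    ring) (by
    intro τ hτ
    have h2 := h τ hτ
    unfold qs at h2 ⊢
    have h3 := (hb τ hτ).tsum_sub (hb' τ hτ)
    rw [h2, sub_self] at h3
    rw [← h3]
    refine tsum_congr ?_
    intro k
    ring)
  funext k
  have := congrFun h1 k
  simp only [Pi.zero_apply] at this
  exact sub_eq_zero.mp this

end Pool.Agent.Helper96.MP
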