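import Pool.Agent.Helper9.MP.Lib
import Pool.Agent.Helper45.MP.UNFB
import Pool.Agent.Helper11.MP.FLIM

/-!
# UB: uniform pointwise bound by the norm, cusps included

In the coordinate `q = e(z / w)` at a cusp of width `w` the form is `q ψ(q)`; the mean value
inequality for `ψ` on the disc of centre `q` and radius `R - |q|`, `R = e^(-π/w)`, does it.
-/

set_option autoImplicit false

namespace Pool.Agent.Helper96.MP

open Complex MeasureTheory Filter Topology
open scoped MatrixGroups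

/-- the function at the cusp `h ∞` -/
noncomputable def ub_g (b : ℕ → ℂ) (h : SL(2, ℤ)) : ℂ → ℂ :=
  flim_g b (h 0 0) (h 0 1) (h 1 0) (h 1 1)

theorem ub_g_of (b : ℕ → ℂ) (h : SL(2, ℤ)) (z : ℂ) (hz : z ∈ UH) :
    ub_g b h z = qs b (mob h z) / jj h z ^ 2 := flim_g_of _ _ _ _ _ z hz

theorem ub_norm (b : ℕ → ℂ) (h : SL(2, ℤ)) (z : ℂ) (hz : z ∈ UH) :
    ‖ub_g b h z‖ ^ 2 = gsq b h z := by
  rw [ub_g_of b h z hz]
  unfold gsq
  rw [norm_div, norm_pow, div_pow]
  ring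

theorem ub_per {N : ℕ} {b : ℕ → ℂ} (hb : Cusp N b) (h : SL(2, ℤ)) (w : ℕ)
    (hw : h * ModularGroup.T ^ w * h⁻¹ ∈ CongruenceSubgroup.Gamma0 N) :
    Function.Periodic (ub_g b h) ((w : ℝ) : ℂ) := by
  intro z
  by_cases hz : 0 < z.im
  · have hzU : z ∈ UH := hz
    have hz' : z + ((w : ℝ) : ℂ) ∈ UH := by
      change 0 < (z + ((w : ℝ) : ℂ)).im
      simpa using hz
    rw [ub_g_of b h _ hz', ub_g_of b h z hz]
    have e0 : z + ((w : ℝ) : ℂ) = mob (ModularGroup.T ^ w) z := by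
      have := Lib.mob_T_zpow (w : ℤ) z
      rw [zpow_natCast] at this
      rw [this]
      push_cast
      rfl
    have j0 : jj (ModularGroup.T ^ w) z = 1 := by
      have := Lib.jj_T_zpow (w : ℤ) z
      rw [zpow_natCast] at this
      exact this
    set γ : SL(2, ℤ) := h * ModularGroup.T ^ w * h⁻¹ with hγ
    have e1 : h * ModularGroup.T ^ w = γ * h := by rw [hγ]; group
    have e2 : mob h (z + ((w : ℝ) : ℂ)) = mob γ (mob h z) := by
      rw [e0, ← Lib.mob_mul h _ hzU, e1, Lib.mob_mul γ h hzU]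
    have e3 : jj h (z + ((w : ℝ) : ℂ)) = jj γ (mob h z) * jj h z := by
      rw [← Lib.jj_mul γ h hzU, ← e1, Lib.jj_mul h _ hzU, j0, mul_one, ← e0]
    have hm := Lib.mob_mem h hzU
    rw [e2, e3, Lib.qs_mob hb hw hm]
    have n1 := Lib.jj_ne γ hm
    have n2 := Lib.jj_ne h hzU
    field_simp
  · have hz' : ¬ 0 < (z + ((w : ℝ) : ℂ)).im := by simpa using hz
    unfold ub_g flim_g
    rw [if_neg hz, if_neg hz']

theorem ub_psi (hQ : ST_QDIF) {N : ℕ} {b : ℕ → ℂ} (hN : 1 ≤ N) (hb : Cusp N b) (h : SL(2, ℤ))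
    (w : ℕ) (hw1 : 1 ≤ w) (hw : h * ModularGroup.T ^ w * h⁻¹ ∈ CongruenceSubgroup.Gamma0 N) :
    ∃ ψ : ℂ → ℂ, DifferentiableOn ℂ ψ (Metric.ball 0 1) ∧
      ∀ z ∈ UH, ub_g b h z
        = Function.Periodic.qParam (w : ℝ) z * ψ (Function.Periodic.qParam (w : ℝ) z) := by
  have hM0 : (0 : ℝ) < (w : ℝ) := by exact_mod_cast hw1
  have hper := ub_per hb h w hw
  have hzero : ZeroAtFilter (comap Complex.im atTop) (ub_g b h) :=
    flim_g_zero N b hb _ _ _ _ (Lib.det1 h)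
  have hdiff : ∀ z ∈ UH, DifferentiableAt ℂ (ub_g b h) z := fun z hz =>
    flim_g_diff hQ N b hN hb _ _ _ _ (Lib.det1 h) z hz
  have hhol : ∀ᶠ z : ℂ in comap Complex.im atTop, DifferentiableAt ℂ (ub_g b h) z :=
    flim_ev.mono hdiff
  set Φ : ℂ → ℂ := Function.Periodic.cuspFunction (w : ℝ) (ub_g b h) with hΦ
  have hΦ0 : Φ 0 = 0 := Function.Periodic.cuspFunction_zero_of_zero_at_inf hM0 hzero
  have hΦd : DifferentiableOn ℂ Φ (Metric.ball 0 1) := by
    intro v hv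
    refine DifferentiableAt.differentiableWithinAt ?_
    by_cases h0 : v = 0
    · rw [h0]
      exact Function.Periodic.differentiableAt_cuspFunction_zero hM0 hper hhol
        hzero.boundedAtFilter
    · have e := Function.Periodic.qParam_right_inv hM0.ne' h0
      have hi : 0 < (Function.Periodic.invQParam (w : ℝ) v).im := by
        rw [← Function.Periodic.norm_qParam_lt_iff hM0, e]
        simpa using hv
      rw [← e]
      exact Function.Periodic.differentiableAt_cuspFunction hM0.ne' hper (hdiff _ hi)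
  have hds : DifferentiableOn ℂ (dslope Φ 0) (Metric.ball 0 1) :=
    (Complex.differentiableOn_dslope (Metric.ball_mem_nhds 0 one_pos)).mpr hΦd
  refine ⟨dslope Φ 0, hds, ?_⟩
  intro z hz
  have hqz : Function.Periodic.qParam (w : ℝ) z ≠ 0 := Function.Periodic.qParam_ne_zero z
  rw [dslope_of_ne _ hqz, slope_def_field, hΦ0, sub_zero, sub_zero, hΦ,
    Function.Periodic.eq_cuspFunction hM0.ne' hper]
  field_simp

/-- the strip -/
def ub_St (w : ℕ) : Set ℂ := {u : ℂ | 0 ≤ u.re ∧ u.re < w ∧ 1 / 2 < u.im}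

theorem ub_St_meas (w : ℕ) : MeasurableSet (ub_St w) := by
  have h1 : MeasurableSet {u : ℂ | 0 ≤ u.re} := measurableSet_le measurable_const Complex.measurable_re
  have h2 : MeasurableSet {u : ℂ | u.re < w} := measurableSet_lt Complex.measurable_re measurable_const
  have h3 : MeasurableSet {u : ℂ | 1 / 2 < u.im} :=
    measurableSet_lt measurable_const Complex.measurable_im
  exact h1.inter (h2.inter h3)

theorem ub_St_UH (w : ℕ) : ub_St w ⊆ UH := by
  intro u hu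
  change 0 < u.im
  have := hu.2.2
  linarith

theorem ub_q_deriv (w : ℕ) (z : ℂ) : HasDerivAt (Function.Periodic.qParam (w : ℝ))
    (Function.Periodic.qParam (w : ℝ) z * (2 * Real.pi * I / (w : ℂ))) z := by
  have := (((hasDerivAt_id z).const_mul (2 * (Real.pi : ℂ) * I)).div_const
    (((w : ℝ) : ℂ))).cexp
  rw [mul_one] at this
  exact this

theorem ub_q_inj (w : ℕ) (hw1 : 1 ≤ w) : Set.InjOn (Function.Periodic.qParam (w : ℝ)) (ub_St w) := by
  intro z hz u hu hzu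
  have hw0 : (0 : ℝ) < (w : ℝ) := by exact_mod_cast hw1
  have hwc : ((w : ℝ) : ℂ) ≠ 0 := by exact_mod_cast hw0.ne'
  unfold Function.Periodic.qParam at hzu
  obtain ⟨n, hn⟩ := Complex.exp_eq_exp_iff_exists_int.mp hzu
  have h2 : z = u + n * (w : ℝ) := by
    have h3 : (2 * (Real.pi : ℂ) * I) * z = (2 * (Real.pi : ℂ) * I) * (u + n * (w : ℝ)) := by
      have h4 : 2 * (Real.pi : ℂ) * I * z / ((w : ℝ) : ℂ) * ((w : ℝ) : ℂ)
          = (2 * (Real.pi : ℂ) * I * u / ((w : ℝ) : ℂ) + n * (2 * (Real.pi : ℂ) * I))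
            * ((w : ℝ) : ℂ) := by rw [hn]
      rw [div_mul_cancel₀ _ hwc, add_mul, div_mul_cancel₀ _ hwc] at h4
      rw [h4]
      ring
    exact mul_left_cancel₀ Complex.two_pi_I_ne_zero h3
  have hre : z.re = u.re + n * w := by
    have := congrArg Complex.re h2
    simpa using this
  have hn0 : n = 0 := by
    have k1 := hz.1
    have k2 := hz.2.1
    have k3 := hu.1
    have k4 := hu.2.1
    have k5 : (n : ℝ) < 1 := by
      by_contra hc
      push Not at hc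
      nlinarith
    have k6 : (-1 : ℝ) < n := by
      by_contra hc
      push Not at hc
      nlinarith
    have k7 : n < 1 := by exact_mod_cast k5
    have k8 : -1 < n := by exact_mod_cast k6
    omega
  rw [h2, hn0]
  simp

theorem ub_q_image (w : ℕ) (hw1 : 1 ≤ w) :
    Function.Periodic.qParam (w : ℝ) '' ub_St w
      = Metric.ball 0 (Real.exp (-2 * Real.pi * (1 / 2) / (w : ℝ))) \ {0} := by
  have hw0 : (0 : ℝ) < (w : ℝ) := by exact_mod_cast hw1
  ext q
  constructor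
  · rintro ⟨z, hz, rfl⟩
    refine ⟨?_, ?_⟩
    · rw [mem_ball_zero_iff, Function.Periodic.norm_qParam_lt_iff hw0]
      exact hz.2.2
    · exact Function.Periodic.qParam_ne_zero z
  · rintro ⟨hq1, hq0⟩
    rw [mem_ball_zero_iff] at hq1
    have hq0' : q ≠ 0 := hq0
    have e := Function.Periodic.qParam_right_inv hw0.ne' hq0'
    set z := Function.Periodic.invQParam (w : ℝ) q with hz
    have him : 1 / 2 < z.im := by
      rw [← Function.Periodic.norm_qParam_lt_iff hw0, e]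
      exact hq1
    set n : ℤ := ⌊z.re / w⌋ with hn
    refine ⟨z - n * (w : ℝ), ⟨?_, ?_, ?_⟩, ?_⟩
    · have : (n : ℝ) ≤ z.re / w := Int.floor_le _
      rw [le_div_iff₀ hw0] at this
      simp only [Complex.sub_re, Complex.mul_re, Complex.intCast_re, Complex.intCast_im,
        Complex.ofReal_re, Complex.ofReal_im, mul_zero, sub_zero]
      linarith
    · have : z.re / w < n + 1 := Int.lt_floor_add_one _
      rw [div_lt_iff₀ hw0] at this
      simp only [Complex.sub_re, Complex.mul_re, Complex.intCast_re, Complex.intCast_im,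
        Complex.ofReal_re, Complex.ofReal_im, mul_zero, sub_zero]
      linarith
    · simpa using him
    · rw [← e]
      unfold Function.Periodic.qParam
      rw [Complex.exp_eq_exp_iff_exists_int]
      refine ⟨-n, ?_⟩
      have hwc : ((w : ℝ) : ℂ) ≠ 0 := by exact_mod_cast hw0.ne'
      field_simp
      push_cast
      ring

theorem ub_int (w : ℕ) (hw1 : 1 ≤ w) (g ψ : ℂ → ℂ)
    (hg : ∀ z ∈ UH, g z
        = Function.Periodic.qParam (w : ℝ) z * ψ (Function.Periodic.qParam (w : ℝ) z)) :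
    ∫ q in Metric.ball (0 : ℂ) (Real.exp (-2 * Real.pi * (1 / 2) / (w : ℝ))) \ {0}, ‖ψ q‖ ^ 2
      = (2 * Real.pi / w) ^ 2 * ∫ z in ub_St w, ‖g z‖ ^ 2 := by
  have hw0 : (0 : ℝ) < (w : ℝ) := by exact_mod_cast hw1
  rw [← ub_q_image w hw1]
  rw [integral_image_eq_integral_abs_det_fderiv_smul volume (ub_St_meas w)
    (f' := fun z => ContinuousLinearMap.restrictScalars ℝ
      (ContinuousLinearMap.toSpanSingleton ℂ
        (Function.Periodic.qParam (w : ℝ) z * (2 * Real.pi * I / (w : ℂ))) : ℂ →L[ℂ] ℂ))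
    (fun z _ => ((ub_q_deriv w z).hasFDerivAt.restrictScalars ℝ).hasFDerivWithinAt)
    (ub_q_inj w hw1)]
  rw [← integral_const_mul]
  refine setIntegral_congr_fun (ub_St_meas w) fun z hz => ?_
  simp only [unf_det_smul]
  rw [hg z (ub_St_UH w hz)]
  rw [abs_of_nonneg (by positivity), smul_eq_mul, norm_mul, norm_mul, norm_div, norm_mul, norm_mul,
    Complex.norm_I, Complex.norm_real, Complex.norm_natCast, Real.norm_of_nonneg Real.pi_pos.le]
  norm_num
  ring

theorem st_UB (hF : ST_FOLD) (hS : ST_STRIP) (hMV : ST_MV) (hQ : ST_QDIF) : ST_UB := by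
  refine ⟨15, by norm_num, ?_⟩
  intro N b hN hb h z hz
  obtain ⟨w, hw1, hw, hov⟩ := hS N hN h
  have hw0 : (0 : ℝ) < (w : ℝ) := by exact_mod_cast hw1
  obtain ⟨ψ, hψ, hgψ⟩ := ub_psi hQ hN hb h w hw1 hw
  have hzU : z ∈ UH := by
    change 0 < z.im
    linarith
  have hpi := Real.pi_pos
  -- the strip integral
  have hKm : MeasurableSet (mob h '' ub_St w) :=
    (ub_St_meas w).image_of_continuousOn_injOn ((Lib.continuousOn_mob h).mono (ub_St_UH w))
      ((Lib.injOn_mob h).mono (ub_St_UH w))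
  have hKU : mob h '' ub_St w ⊆ UH := by
    rintro _ ⟨u, hu, rfl⟩
    exact Lib.mob_mem h (ub_St_UH w hu)
  have hfold := hF N b hN hb Unit (fun _ => mob h '' ub_St w) 6 (fun _ => hKm) (fun _ => hKU) (by
    intro u hu
    obtain ⟨hfin, hcard⟩ := hov u hu
    have heq : {v : SL(2, ℤ) × Unit | v.1 ∈ CongruenceSubgroup.Gamma0 N ∧
        mob v.1 u ∈ mob h '' ub_St w}
        = (fun g : SL(2, ℤ) => (g, ())) '' {g : SL(2, ℤ) | g ∈ CongruenceSubgroup.Gamma0 N ∧
          mob g u ∈ mob h '' {u : ℂ | 0 ≤ u.re ∧ u.re < w ∧ 1 / 2 < u.im}} := by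
      ext ⟨g, x⟩
      constructor
      · intro hg
        exact ⟨g, hg, rfl⟩
      · rintro ⟨g', hg', hgg⟩
        have : g' = g := congrArg Prod.fst hgg
        rw [← this]
        exact hg'
    rw [heq]
    refine ⟨hfin.image _, ?_⟩
    rw [Set.ncard_image_of_injective _ (fun a b hab => congrArg Prod.fst hab)]
    exact hcard)
  obtain ⟨-, hle⟩ := hfold
  have hle2 : ∫ u in ub_St w, ‖ub_g b h u‖ ^ 2 ≤ 6 * nrm N b := by
    have e : ∫ z in mob h '' ub_St w, ‖qs b z‖ ^ 2 = ∫ u in ub_St w, ‖ub_g b h u‖ ^ 2 := by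
      rw [unf_int h (ub_St_meas w) (ub_St_UH w)]
      refine setIntegral_congr_fun (ub_St_meas w) fun u hu => ?_
      rw [ub_norm b h u (ub_St_UH w hu), smul_eq_mul]
      unfold gsq
      ring
    rw [← e]
    simpa using hle
  -- the disc
  set R : ℝ := Real.exp (-2 * Real.pi * (1 / 2) / (w : ℝ)) with hR
  have hR1 : R < 1 := by
    rw [hR, Real.exp_lt_one_iff]
    have : 0 < Real.pi / w := by positivity
    have e : -2 * Real.pi * (1 / 2) / (w : ℝ) = -(Real.pi / w) := by ring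
    rw [e]
    linarith
  set q := Function.Periodic.qParam (w : ℝ) z with hq
  have hqn : ‖q‖ = Real.exp (-2 * Real.pi * z.im / w) := Function.Periodic.norm_qParam _ _
  have hqR : ‖q‖ < R := by
    rw [hqn, hR]
    refine Real.exp_lt_exp.mpr ?_
    rw [div_lt_div_iff_of_pos_right hw0]
    nlinarith
  have hq0 : 0 < ‖q‖ := by rw [hqn]; exact Real.exp_pos _
  have hr : 0 < R - ‖q‖ := by linarith
  have hsub1 : Metric.ball q (R - ‖q‖) ⊆ Metric.ball 0 R := by
    refine Metric.ball_subset_ball' ?_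
    rw [dist_zero_right]
    linarith
  have hsub2 : Metric.ball (0 : ℂ) R ⊆ Metric.ball 0 1 := Metric.ball_subset_ball hR1.le
  have hint : IntegrableOn (fun v => ‖ψ v‖ ^ 2) (Metric.ball (0 : ℂ) R) := by
    have hc : ContinuousOn (fun v => ‖ψ v‖ ^ 2) (Metric.closedBall (0 : ℂ) R) :=
      ((hψ.continuousOn.mono (Metric.closedBall_subset_ball hR1)).norm).pow 2
    exact (hc.integrableOn_compact (isCompact_closedBall (0 : ℂ) R)).mono_set
      Metric.ball_subset_closedBall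
  have hmv := hMV ψ q (R - ‖q‖) hr (hψ.mono (hsub1.trans hsub2)) (hint.mono_set hsub1)
  have hae : Metric.ball q (R - ‖q‖) ≤ᵐ[volume] (Metric.ball (0 : ℂ) R \ {0} : Set ℂ) := by
    have h0 : ∀ᵐ v : ℂ ∂volume, v ≠ 0 := by
      have : ({0} : Set ℂ)ᶜ ∈ ae (volume : Measure ℂ) :=
        compl_mem_ae_iff.mpr (measure_singleton 0)
      exact this
    filter_upwards [h0] with v hv hvm
    exact ⟨hsub1 hvm, hv⟩
  have hmono : ∫ v in Metric.ball q (R - ‖q‖), ‖ψ v‖ ^ 2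
      ≤ ∫ v in Metric.ball (0 : ℂ) R \ {0}, ‖ψ v‖ ^ 2 := by
    refine setIntegral_mono_set (hint.mono_set Set.sdiff_subset) ?_ hae
    exact Eventually.of_forall fun v => by positivity
  rw [ub_int w hw1 (ub_g b h) ψ hgψ] at hmono
  have hall : ‖ψ q‖ ^ 2 * (Real.pi * (R - ‖q‖) ^ 2) ≤ (2 * Real.pi / w) ^ 2 * (6 * nrm N b) := by
    refine hmv.trans (hmono.trans ?_)
    exact mul_le_mul_of_nonneg_left hle2 (by positivity)
  have hkey : ‖q‖ * (2 * Real.pi * (z.im - 1 / 2) / w) ≤ R - ‖q‖ := by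
    have e1 : R = ‖q‖ * Real.exp (2 * Real.pi * (z.im - 1 / 2) / w) := by
      rw [hqn, hR, ← Real.exp_add]
      congr 1
      ring
    have e2 := Real.add_one_le_exp (2 * Real.pi * (z.im - 1 / 2) / w)
    have e3 := mul_le_mul_of_nonneg_left e2 hq0.le
    rw [← e1] at e3
    linarith
  have hy : 0 < z.im - 1 / 2 := by linarith
  have hsq : (‖q‖ * (2 * Real.pi * (z.im - 1 / 2) / w)) ^ 2 ≤ (R - ‖q‖) ^ 2 :=
    pow_le_pow_left₀ (by positivity) hkey 2
  have h1 : ‖ψ q‖ ^ 2 * (Real.pi * (‖q‖ * (2 * Real.pi * (z.im - 1 / 2) / w)) ^ 2)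
      ≤ (2 * Real.pi / w) ^ 2 * (6 * nrm N b) := by
    refine le_trans ?_ hall
    have : 0 ≤ ‖ψ q‖ ^ 2 := by positivity
    exact mul_le_mul_of_nonneg_left (mul_le_mul_of_nonneg_left hsq hpi.le) this
  have h2 : ‖ψ q‖ ^ 2 * ‖q‖ ^ 2 * (z.im - 1 / 2) ^ 2 * Real.pi ≤ 6 * nrm N b := by
    have hc : 0 < (2 * Real.pi / (w : ℝ)) ^ 2 := by positivity
    have e : ‖ψ q‖ ^ 2 * (Real.pi * (‖q‖ * (2 * Real.pi * (z.im - 1 / 2) / w)) ^ 2)
        = (2 * Real.pi / w) ^ 2 * (‖ψ q‖ ^ 2 * ‖q‖ ^ 2 * (z.im - 1 / 2) ^ 2 * Real.pi) := by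
      ring
    rw [e] at h1
    exact le_of_mul_le_mul_left h1 hc
  have h3 : z.im ^ 2 ≤ 64 / 9 * (z.im - 1 / 2) ^ 2 := by nlinarith
  have hX : gsq b h z = ‖ψ q‖ ^ 2 * ‖q‖ ^ 2 := by
    rw [← ub_norm b h z hzU, hgψ z hzU, norm_mul, mul_pow]
    ring
  have hX0 : 0 ≤ ‖ψ q‖ ^ 2 * ‖q‖ ^ 2 := by positivity
  rw [hX]
  have hpi3 : 3 < Real.pi := Real.pi_gt_three
  have h4 : ‖ψ q‖ ^ 2 * ‖q‖ ^ 2 * (z.im - 1 / 2) ^ 2 * 3 ≤ 6 * nrm N b := by
    refine le_trans ?_ h2
    exact mul_le_mul_of_nonneg_left hpi3.le (by positivity)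
  have h5 : ‖ψ q‖ ^ 2 * ‖q‖ ^ 2 * z.im ^ 2
      ≤ ‖ψ q‖ ^ 2 * ‖q‖ ^ 2 * (64 / 9 * (z.im - 1 / 2) ^ 2) := mul_le_mul_of_nonneg_left h3 hX0
  have h6 : 0 ≤ ‖ψ q‖ ^ 2 * ‖q‖ ^ 2 * z.im ^ 2 := by positivity
  linarith

end Pool.Agent.Helper96.MP
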